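import Pool.Agent.H80.PK.KStmts

/-!
Board `pkt` (MP_70b9d9_an), row ABS.
-/

set_option autoImplicit false

namespace Pool.PK

open Filter Topology

namespace ABSaux

theorem num (e v g : ℕ → ℝ) (he0 : ∀ k, 0 ≤ e k) (hv0 : ∀ k, 0 ≤ v k) (hg0 : ∀ k, 0 ≤ g k)
    (hee : ∀ j k, e (j + k) ≤ e j * e k) (hev : ∀ j k, v (j + k) ≤ e j * v k + e k * v j)
    (hlim : Tendsto e atTop (𝓝 0)) (hg : ∀ c : ℝ, 1 < c → ∃ A : ℝ, ∀ k, g k ≤ A * c ^ k) :
    Tendsto (fun k => g k * v k) atTop (𝓝 0) := by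
  obtain ⟨m0, hm0⟩ := (hlim.eventually (gt_mem_nhds (show (0 : ℝ) < 1 / 4 by norm_num))).exists_forall_of_atTop
  obtain ⟨m, hm1, hm⟩ : ∃ m : ℕ, 1 ≤ m ∧ e m ≤ 1 / 4 :=
    ⟨max m0 1, le_max_right _ _, (hm0 _ (le_max_left _ _)).le⟩
  set B : ℝ := ∑ r ∈ Finset.range m, e r with hB
  have hBr : ∀ r < m, e r ≤ B := fun r hr =>
    Finset.single_le_sum (f := e) (fun i _ => he0 i) (Finset.mem_range.2 hr)
  have hB0 : 0 ≤ B := Finset.sum_nonneg fun i _ => he0 i
  have h1 : ∀ q r, e (q * m + r) ≤ (1 / 4) ^ q * e r := by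
    intro q r
    induction q with
    | zero => simp
    | succ q ih =>
      have := hee m (q * m + r)
      rw [show (q + 1) * m + r = m + (q * m + r) by ring, pow_succ]
      nlinarith [he0 m, he0 (q * m + r), he0 r]
  set D : ℝ := ∑ r ∈ Finset.range m, v r + 4 * (B * v m) with hD
  have hBv : 0 ≤ B * v m := mul_nonneg hB0 (hv0 m)
  have hvs : 0 ≤ ∑ r ∈ Finset.range m, v r := Finset.sum_nonneg fun i _ => hv0 i
  have hD0 : 0 ≤ D := by positivity
  have hDr : ∀ r < m, v r ≤ D := fun r hr => by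
    have := Finset.single_le_sum (f := v) (fun i _ => hv0 i) (Finset.mem_range.2 hr)
    rw [hD]; linarith
  have hDB : B * v m ≤ D / 4 := by rw [hD]; linarith
  have h2 : ∀ q, ∀ r < m, v (q * m + r) ≤ (1 / 2) ^ q * D := by
    intro q r hr
    induction q with
    | zero => simpa using hDr r hr
    | succ q ih =>
      have h3 := hev m (q * m + r)
      rw [show (q + 1) * m + r = m + (q * m + r) by ring, pow_succ]
      have h4 : e m * v (q * m + r) ≤ 1 / 4 * ((1 / 2) ^ q * D) :=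
        mul_le_mul hm ih (hv0 _) (by norm_num)
      have h5 : e (q * m + r) * v m ≤ (1 / 2) ^ q * (D / 4) := by
        have h6 : e (q * m + r) ≤ (1 / 2) ^ q * B :=
          (h1 q r).trans (mul_le_mul (pow_le_pow_left₀ (by norm_num) (by norm_num) q) (hBr r hr)
            (he0 r) (by positivity))
        calc e (q * m + r) * v m ≤ ((1 / 2) ^ q * B) * v m := mul_le_mul_of_nonneg_right h6 (hv0 m)
          _ = (1 / 2) ^ q * (B * v m) := by ring
          _ ≤ (1 / 2) ^ q * (D / 4) := mul_le_mul_of_nonneg_left hDB (by positivity)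
      linarith
  have hmpos : (0 : ℝ) < m := by exact_mod_cast hm1
  set c : ℝ := 1 / (2 * m) + 1 with hc
  have hc1 : 1 < c := by rw [hc]; have : (0 : ℝ) < 1 / (2 * m) := by positivity
                         linarith
  have hcm : c ^ m ≤ 7 / 4 := by
    have h3 : c ^ m ≤ Real.exp (1 / 2) := by
      calc c ^ m ≤ (Real.exp (1 / (2 * m))) ^ m :=
            pow_le_pow_left₀ (by linarith) (Real.add_one_le_exp _) m
        _ = Real.exp (1 / 2) := by
            rw [← Real.exp_nat_mul]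
            congr 1
            field_simp
    have h4 : Real.exp (1 / 2) * Real.exp (1 / 2) = Real.exp 1 := by
      rw [← Real.exp_add]; norm_num
    have h5 := Real.exp_one_lt_d9
    have h6 := Real.exp_pos (1 / 2)
    nlinarith
  obtain ⟨A, hA⟩ := hg c hc1
  have hA0 : 0 ≤ A := by simpa using (hg0 0).trans (hA 0)
  have hlim2 : Tendsto (fun k : ℕ => 2 * (A * D) * (7 / 8 : ℝ) ^ (k / m)) atTop (𝓝 0) := by
    have h3 : Tendsto (fun q : ℕ => 2 * (A * D) * (7 / 8 : ℝ) ^ q) atTop (𝓝 0) := by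
      simpa using (tendsto_pow_atTop_nhds_zero_of_lt_one (show (0 : ℝ) ≤ 7 / 8 by norm_num)
        (by norm_num)).const_mul (2 * (A * D))
    exact h3.comp (Nat.tendsto_div_const_atTop (by omega))
  refine squeeze_zero (fun k => mul_nonneg (hg0 k) (hv0 k)) (fun k => ?_) hlim2
  have hk : k / m * m + k % m = k := Nat.div_add_mod' k m
  have hr : k % m < m := Nat.mod_lt _ (by omega)
  have h3 : v k ≤ (1 / 2) ^ (k / m) * D := by
    have := h2 (k / m) (k % m) hr
    rwa [hk] at this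
  have h4 : c ^ k ≤ (7 / 4) ^ (k / m) * 2 := by
    have h5 : c ^ (k % m) ≤ 2 :=
      (pow_le_pow_right₀ hc1.le hr.le).trans (hcm.trans (by norm_num))
    calc c ^ k = c ^ (k / m * m + k % m) := by rw [hk]
      _ = (c ^ m) ^ (k / m) * c ^ (k % m) := by rw [pow_add, mul_comm (k / m) m, pow_mul]
      _ ≤ (7 / 4) ^ (k / m) * 2 := mul_le_mul (pow_le_pow_left₀ (by positivity) hcm _) h5
          (by positivity) (by positivity)
  calc g k * v k ≤ (A * ((7 / 4) ^ (k / m) * 2)) * ((1 / 2) ^ (k / m) * D) :=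
        mul_le_mul ((hA k).trans (mul_le_mul_of_nonneg_left h4 hA0)) h3 (hv0 k) (by positivity)
    _ = 2 * (A * D) * ((7 / 4) ^ (k / m) * (1 / 2) ^ (k / m)) := by ring
    _ = 2 * (A * D) * (7 / 8 : ℝ) ^ (k / m) := by rw [← mul_pow]; norm_num

theorem dsum {n : ℕ} (a b : Fin n → Fin n → ℝ) (ha : ∀ i j, 0 ≤ a i j) (hb : ∀ i j, 0 ≤ b i j) :
    ∑ i, ∑ j, ∑ l, a i l * b l j ≤ (∑ i, ∑ l, a i l) * ∑ l, ∑ j, b l j := by
  calc ∑ i, ∑ j, ∑ l, a i l * b l j = ∑ i, ∑ l, a i l * ∑ j, b l j := by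
        refine Finset.sum_congr rfl fun i _ => ?_
        rw [Finset.sum_comm]
        exact Finset.sum_congr rfl fun l _ => (Finset.mul_sum _ _ _).symm
    _ ≤ ∑ i, ∑ l, a i l * ∑ l', ∑ j, b l' j := by
        refine Finset.sum_le_sum fun i _ => Finset.sum_le_sum fun l _ =>
          mul_le_mul_of_nonneg_left ?_ (ha i l)
        exact Finset.single_le_sum (f := fun l' => ∑ j, b l' j)
          (fun l' _ => Finset.sum_nonneg fun j _ => hb l' j) (Finset.mem_univ l)
    _ = (∑ i, ∑ l, a i l) * ∑ l, ∑ j, b l j := by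
        rw [Finset.sum_mul]
        exact Finset.sum_congr rfl fun i _ => (Finset.sum_mul _ _ _).symm

section
variable {C : Type} [NonUnitalRing C] [Module ℂ C] [IsScalarTower ℂ C C] [SMulCommClass ℂ C C]

theorem sn_zero {N : C → ℝ} (hN : IsSN N) : N 0 = 0 := by
  have := hN.2.2 0 0
  simpa using this

theorem sn_sum {N : C → ℝ} (hN : IsSN N) {ι : Type} (s : Finset ι) (f : ι → C) :
    N (∑ i ∈ s, f i) ≤ ∑ i ∈ s, N (f i) := by
  classical
  induction s using Finset.induction_on with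
  | empty => simp [sn_zero hN]
  | insert a s ha ih =>
    rw [Finset.sum_insert ha, Finset.sum_insert ha]
    exact (hN.2.1 _ _).trans (by linarith)

theorem en_entry {M : C → ℝ} (hM : IsSN M) (hMM : ∀ f h, M (f * h) ≤ M f * M h)
    (x y : Unitization ℂ C) :
    ‖(x * y).fst‖ + M (x * y).snd ≤ (‖x.fst‖ + M x.snd) * (‖y.fst‖ + M y.snd) := by
  rw [Unitization.fst_mul, Unitization.snd_mul, norm_mul]
  have h1 := hM.2.1 (x.fst • y.snd + y.fst • x.snd) (x.snd * y.snd)
  have h2 := hM.2.1 (x.fst • y.snd) (y.fst • x.snd)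
  rw [hM.2.2, hM.2.2] at h2
  have h3 := hMM x.snd y.snd
  nlinarith

theorem v_entry {M V : C → ℝ} (hM : IsSN M) (hV : IsSN V) (hVV : ∀ f h, V (f * h) ≤ M f * V h)
    (x y : Unitization ℂ C) :
    V (x * y).snd ≤ (‖x.fst‖ + M x.snd) * V y.snd + V x.snd * (‖y.fst‖ + M y.snd) := by
  rw [Unitization.snd_mul]
  have h1 := hV.2.1 (x.fst • y.snd + y.fst • x.snd) (x.snd * y.snd)
  have h2 := hV.2.1 (x.fst • y.snd) (y.fst • x.snd)
  rw [hV.2.2, hV.2.2] at h2
  have h3 := hVV x.snd y.snd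
  have h4 := mul_nonneg (hV.1 x.snd) (hM.1 y.snd)
  nlinarith

/-- sum of `V` of the second components -/
noncomputable def VS (V : C → ℝ) {n : ℕ} (X : Mat (Unitization ℂ C) n) : ℝ :=
  ∑ i, ∑ j, V (X i j).snd

theorem fst_sum' {ι : Type} (s : Finset ι) (f : ι → Unitization ℂ C) :
    (∑ i ∈ s, f i).fst = ∑ i ∈ s, (f i).fst := by
  classical
  induction s using Finset.induction_on with
  | empty => simp
  | insert a s ha ih => rw [Finset.sum_insert ha, Finset.sum_insert ha, Unitization.fst_add, ih]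

theorem snd_sum' {ι : Type} (s : Finset ι) (f : ι → Unitization ℂ C) :
    (∑ i ∈ s, f i).snd = ∑ i ∈ s, (f i).snd := by
  classical
  induction s using Finset.induction_on with
  | empty => simp
  | insert a s ha ih => rw [Finset.sum_insert ha, Finset.sum_insert ha, Unitization.snd_add, ih]

theorem en_mul {M : C → ℝ} (hM : IsSN M) (hMM : ∀ f h, M (f * h) ≤ M f * M h) {n : ℕ}
    (X Y : Mat (Unitization ℂ C) n) : EN M (X * Y) ≤ EN M X * EN M Y := by
  have hnn : ∀ (Z : Mat (Unitization ℂ C) n) (i j : Fin n), 0 ≤ ‖(Z i j).fst‖ + M (Z i j).snd :=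
    fun Z i j => add_nonneg (norm_nonneg _) (hM.1 _)
  refine le_trans ?_ (dsum _ _ (hnn X) (hnn Y))
  refine Finset.sum_le_sum fun i _ => Finset.sum_le_sum fun j _ => ?_
  rw [Matrix.mul_apply, fst_sum', snd_sum']
  calc ‖∑ l, (X i l * Y l j).fst‖ + M (∑ l, (X i l * Y l j).snd)
      ≤ ∑ l, ‖(X i l * Y l j).fst‖ + ∑ l, M (X i l * Y l j).snd :=
        add_le_add (norm_sum_le _ _) (sn_sum hM _ _)
    _ = ∑ l, (‖(X i l * Y l j).fst‖ + M (X i l * Y l j).snd) := Finset.sum_add_distrib.symm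
    _ ≤ _ := Finset.sum_le_sum fun l _ => en_entry hM hMM _ _

theorem vs_mul {M V : C → ℝ} (hM : IsSN M) (hV : IsSN V) (hVV : ∀ f h, V (f * h) ≤ M f * V h)
    {n : ℕ} (X Y : Mat (Unitization ℂ C) n) :
    VS V (X * Y) ≤ EN M X * VS V Y + EN M Y * VS V X := by
  have hnn : ∀ (Z : Mat (Unitization ℂ C) n) (i j : Fin n), 0 ≤ ‖(Z i j).fst‖ + M (Z i j).snd :=
    fun Z i j => add_nonneg (norm_nonneg _) (hM.1 _)
  have hvv : ∀ (Z : Mat (Unitization ℂ C) n) (i j : Fin n), 0 ≤ V (Z i j).snd :=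
    fun Z i j => hV.1 _
  have h1 := dsum _ _ (hnn X) (hvv Y)
  have h2 := dsum _ _ (hvv X) (hnn Y)
  have h3 : VS V (X * Y) ≤ ∑ i, ∑ j, ∑ l, (‖(X i l).fst‖ + M (X i l).snd) * V (Y l j).snd +
      ∑ i, ∑ j, ∑ l, V (X i l).snd * (‖(Y l j).fst‖ + M (Y l j).snd) := by
    rw [← Finset.sum_add_distrib]
    refine Finset.sum_le_sum fun i _ => ?_
    rw [← Finset.sum_add_distrib]
    refine Finset.sum_le_sum fun j _ => ?_
    rw [← Finset.sum_add_distrib, Matrix.mul_apply, snd_sum']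
    exact (sn_sum hV _ _).trans (Finset.sum_le_sum fun l _ => v_entry hM hV hVV _ _)
  unfold EN VS at *
  linarith

theorem pow_mem (S : ℕ → Submodule ℂ C) (hS1 : ∀ k, S k ≤ S (k + 1))
    (hS2 : ∀ j k, ∀ f ∈ S j, ∀ h ∈ S k, f * h ∈ S (j + k)) {n : ℕ} (X : Mat (Unitization ℂ C) n)
    (hX : ∀ i j, (X i j).snd ∈ S 1) (k : ℕ) : ∀ i j, ((X ^ k) i j).snd ∈ S k := by
  have hmono : Monotone S := monotone_nat_of_le_succ hS1
  induction k with
  | zero =>
    intro i j
    rw [pow_zero, Matrix.one_apply]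
    split_ifs <;> simp
  | succ k ih =>
    intro i j
    rw [pow_succ, Matrix.mul_apply, snd_sum']
    refine Submodule.sum_mem _ fun l _ => ?_
    rw [Unitization.snd_mul]
    refine Submodule.add_mem _ (Submodule.add_mem _ (Submodule.smul_mem _ _ ?_)
      (Submodule.smul_mem _ _ ?_)) (hS2 k 1 _ (ih i l) _ (hX l j))
    · exact hmono (by omega : 1 ≤ k + 1) (hX l j)
    · exact hS1 k (ih i l)

end

end ABSaux

open ABSaux in
theorem ABS : ABSStmt := by
  intro C _ _ _ _ N1 M V S g hN1 hM hV hMM hVV hS1 hS2 hg0 hgS hg n X hX hlim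
  have hnum := num (fun k => EN M (X ^ k)) (fun k => VS V (X ^ k)) g
    (fun k => Finset.sum_nonneg fun i _ => Finset.sum_nonneg fun j _ =>
      add_nonneg (norm_nonneg _) (hM.1 _))
    (fun k => Finset.sum_nonneg fun i _ => Finset.sum_nonneg fun j _ => hV.1 _) hg0
    (fun j k => by simp only [pow_add]; exact en_mul hM hMM _ _)
    (fun j k => by simp only [pow_add]; exact vs_mul hM hV hVV _ _) hlim hg
  have hlim2 := hlim.add hnum
  rw [add_zero] at hlim2
  refine squeeze_zero (fun k => Finset.sum_nonneg fun i _ => Finset.sum_nonneg fun j _ =>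
      add_nonneg (norm_nonneg _) (hN1.1 _)) (fun k => ?_) hlim2
  have h1 := pow_mem S hS1 hS2 X hX k
  unfold EN VS
  rw [Finset.mul_sum, ← Finset.sum_add_distrib]
  refine Finset.sum_le_sum fun i _ => ?_
  rw [Finset.mul_sum, ← Finset.sum_add_distrib]
  refine Finset.sum_le_sum fun j _ => ?_
  have h2 := hgS k _ (h1 i j)
  have h3 := hM.1 ((X ^ k) i j).snd
  linarith

end Pool.PK
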